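import Pool.Agent.H88.CR.Targets

set_option autoImplicit false

open Filter Topology Set Pool.Agent.H85.WMP Pool.Agent.H88.WR Pool.Agent.H88.CR

namespace Pool.Agent.H55.CR

section

variable {𝕜 : Type} [RCLike 𝕜] {F : Type} [NormedAddCommGroup F] [NormedSpace 𝕜 F]

/-- weak nullity from a dense family of functionals -/
theorem wn_of_dense (f : ℕ → StrongDual 𝕜 F) (hf : DenseRange f) (u : ℕ → F) (C : ℝ)
    (hu : ∀ n, ‖u n‖ ≤ C) (h : ∀ k, Tendsto (fun n => f k (u n)) atTop (𝓝 0)) :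
    WeaklyNull 𝕜 u := by
  intro φ
  rw [Metric.tendsto_atTop]
  intro ε hε
  have hC : 0 ≤ C := (norm_nonneg _).trans (hu 0)
  have hC1 : 0 < C + 1 := by linarith
  obtain ⟨k, hk⟩ := hf.exists_dist_lt φ (show 0 < ε / 2 / (C + 1) by positivity)
  have h2 := (Metric.tendsto_atTop.1 (h k)) (ε / 2) (by positivity)
  obtain ⟨N, hN⟩ := h2
  refine ⟨N, fun n hn => ?_⟩
  have h3 := hN n hn
  rw [dist_zero_right] at h3 ⊢
  have h4 : ‖φ (u n) - f k (u n)‖ ≤ ‖φ - f k‖ * ‖u n‖ := by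
    have := (φ - f k).le_opNorm (u n)
    simpa using this
  have h5 : ‖φ - f k‖ * ‖u n‖ ≤ ε / 2 / (C + 1) * C := by
    apply mul_le_mul _ (hu n) (norm_nonneg _) (by positivity)
    rw [dist_eq_norm] at hk
    exact hk.le
  have h6 : ε / 2 / (C + 1) * C ≤ ε / 2 := by
    rw [div_mul_eq_mul_div, div_le_iff₀ hC1]
    nlinarith
  have h7 : φ (u n) = (φ (u n) - f k (u n)) + f k (u n) := by ring
  rw [h7]
  calc ‖(φ (u n) - f k (u n)) + f k (u n)‖ ≤ ‖φ (u n) - f k (u n)‖ + ‖f k (u n)‖ :=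
        norm_add_le _ _
    _ < ε := by linarith

/-- the family of seminorms -/
noncomputable def sn (d : ℕ → F) (g : ℕ → StrongDual 𝕜 F) (n : ℕ) (x : F) : ℝ :=
  if n % 2 = 0 then ‖(Submodule.span 𝕜 (d '' Set.Iio (n / 2))).mkQ x‖ else ‖g (n / 2) x‖

theorem sn_even (d : ℕ → F) (g : ℕ → StrongDual 𝕜 F) (k : ℕ) (x : F) :
    sn d g (2 * k) x = ‖(Submodule.span 𝕜 (d '' Set.Iio k)).mkQ x‖ := by
  unfold sn
  have h1 : 2 * k % 2 = 0 := by omega
  have h2 : 2 * k / 2 = k := by omega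
  rw [if_pos h1, h2]

theorem sn_odd (d : ℕ → F) (g : ℕ → StrongDual 𝕜 F) (k : ℕ) (x : F) :
    sn d g (2 * k + 1) x = ‖g k x‖ := by
  unfold sn
  have h1 : ¬ (2 * k + 1) % 2 = 0 := by omega
  have h2 : (2 * k + 1) / 2 = k := by omega
  rw [if_neg h1, h2]

theorem sn_nonneg (d : ℕ → F) (g : ℕ → StrongDual 𝕜 F) (k : ℕ) (x : F) : 0 ≤ sn d g k x := by
  unfold sn
  split_ifs <;> exact norm_nonneg _

theorem sn_le (d : ℕ → F) (g : ℕ → StrongDual 𝕜 F) (hg : ∀ k, ‖g k‖ ≤ 1) (k : ℕ) (x : F) :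
    sn d g k x ≤ ‖x‖ := by
  unfold sn
  split_ifs
  · exact Submodule.Quotient.norm_mk_le _ x
  · calc ‖g (k / 2) x‖ ≤ ‖g (k / 2)‖ * ‖x‖ := (g (k / 2)).le_opNorm x
      _ ≤ 1 * ‖x‖ := by gcongr; exact hg _
      _ = ‖x‖ := one_mul _

theorem sn_add (d : ℕ → F) (g : ℕ → StrongDual 𝕜 F) (k : ℕ) (x y : F) :
    sn d g k (x + y) ≤ sn d g k x + sn d g k y := by
  unfold sn
  split_ifs
  · rw [map_add]; exact norm_add_le _ _
  · rw [map_add]; exact norm_add_le _ _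

theorem sn_smul (d : ℕ → F) (g : ℕ → StrongDual 𝕜 F) (k : ℕ) (c : 𝕜) (x : F) :
    sn d g k (c • x) = ‖c‖ * sn d g k x := by
  unfold sn
  split_ifs
  · rw [map_smul]; exact norm_smul _ _
  · rw [map_smul]; exact norm_smul _ _

theorem par (s t : 𝕜) : 2 * ‖s‖ ^ 2 + 2 * ‖t‖ ^ 2 - ‖s + t‖ ^ 2 = ‖s - t‖ ^ 2 := by
  have := parallelogram_law_with_norm 𝕜 s t
  nlinarith

end

theorem df_ge {F : Type} [NormedAddCommGroup F] (x y : F) : (‖x‖ - ‖y‖) ^ 2 ≤ Df x y := by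
  unfold Df
  have h1 : ‖x + y‖ ≤ ‖x‖ + ‖y‖ := norm_add_le _ _
  have h2 : ‖x + y‖ ^ 2 ≤ (‖x‖ + ‖y‖) ^ 2 := by
    apply pow_le_pow_left₀ (norm_nonneg _) h1
  nlinarith

theorem pf_KAD (𝕜 : Type) [RCLike 𝕜] (hDSP : T_DSP 𝕜) (hSQN : T_SQN 𝕜) : T_KAD 𝕜 := by
  intro F _ _ hR hS
  have := hS
  have hsd : TopologicalSpace.SeparableSpace (StrongDual 𝕜 F) := hDSP F hR hS
  set d : ℕ → F := TopologicalSpace.denseSeq F with hd
  have hdd : DenseRange d := TopologicalSpace.denseRange_denseSeq F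
  set f : ℕ → StrongDual 𝕜 F := TopologicalSpace.denseSeq (StrongDual 𝕜 F) with hf
  have hfd : DenseRange f := TopologicalSpace.denseRange_denseSeq _
  set g : ℕ → StrongDual 𝕜 F := fun k => (((max 1 ‖f k‖)⁻¹ : ℝ) : 𝕜) • f k with hg
  have hm : ∀ k, 0 < max 1 ‖f k‖ := fun k => lt_of_lt_of_le one_pos (le_max_left _ _)
  have hg1 : ∀ k, ‖g k‖ ≤ 1 := by
    intro k
    rw [hg]
    simp only
    rw [norm_smul, RCLike.norm_ofReal, abs_of_pos (inv_pos.2 (hm k)), inv_mul_le_iff₀ (hm k),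
      mul_one]
    exact le_max_right _ _
  have hfg : ∀ k (x : F), f k x = ((max 1 ‖f k‖ : ℝ) : 𝕜) * g k x := by
    intro k x
    rw [hg]
    simp only [smul_apply, smul_eq_mul]
    rw [← mul_assoc, ← RCLike.ofReal_mul, mul_inv_cancel₀ (hm k).ne', RCLike.ofReal_one, one_mul]
  obtain ⟨F', i1, i2, e, h1, h2, h3⟩ := hSQN F (sn d g) (sn_nonneg d g) (sn_le d g hg1)
    (sn_add d g) (sn_smul d g)
  -- consequences
  have hi : ∀ k (x y : F'), (1 / 2 : ℝ) ^ (2 * k + 1 + 1) * ‖g k (e x - e y)‖ ^ 2 ≤ Df x y := by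
    intro k x y
    have h4 := (h3 x y).2 (2 * k + 1)
    rw [sn_odd, sn_odd, sn_odd, map_add, par] at h4
    rw [map_sub]
    exact h4
  have hii : ∀ k (x y : F'), (1 / 2 : ℝ) ^ (2 * k + 1) *
      (‖(Submodule.span 𝕜 (d '' Set.Iio k)).mkQ (e x)‖ -
        ‖(Submodule.span 𝕜 (d '' Set.Iio k)).mkQ (e y)‖) ^ 2 ≤ Df x y := by
    intro k x y
    have h4 := (h3 x y).2 (2 * k)
    rw [sn_even, sn_even, sn_even, map_add] at h4
    refine le_trans ?_ h4
    apply mul_le_mul_of_nonneg_left _ (by positivity)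
    set a := (Submodule.span 𝕜 (d '' Set.Iio k)).mkQ (e x)
    set b := (Submodule.span 𝕜 (d '' Set.Iio k)).mkQ (e y)
    have h5 : ‖a + b‖ ^ 2 ≤ (‖a‖ + ‖b‖) ^ 2 := pow_le_pow_left₀ (norm_nonneg _) (norm_add_le _ _) 2
    nlinarith
  have sq0 : ∀ (c : ℝ) (_ : 0 < c) (r D : ℕ → ℝ), (∀ n, c * r n ^ 2 ≤ D n) →
      Tendsto D atTop (𝓝 0) → Tendsto r atTop (𝓝 0) := by
    intro c hc r D hr hD
    have h4 : Tendsto (fun n => r n ^ 2) atTop (𝓝 0) := by
      have h5 : Tendsto (fun n => c⁻¹ * D n) atTop (𝓝 0) := by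
        simpa using hD.const_mul c⁻¹
      refine squeeze_zero (fun n => sq_nonneg _) (fun n => ?_) h5
      rw [← div_eq_inv_mul, le_div_iff₀ hc, mul_comm]
      exact hr n
    have h6 : Tendsto (fun n => Real.sqrt (r n ^ 2)) atTop (𝓝 0) := by
      simpa using h4.sqrt
    simp only [Real.sqrt_sq_eq_abs] at h6
    exact (tendsto_zero_iff_abs_tendsto_zero _).2 h6
  have hw : ∀ (x y : ℕ → F') (C : ℝ), (∀ n, ‖x n‖ ≤ C) → (∀ n, ‖y n‖ ≤ C) →
      Tendsto (fun n => Df (x n) (y n)) atTop (𝓝 0) →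
      WeaklyNull 𝕜 fun n => e (x n) - e (y n) := by
    intro x y C hx hy hD
    apply wn_of_dense f hfd _ (C + C)
    · intro n
      calc ‖e (x n) - e (y n)‖ ≤ ‖e (x n)‖ + ‖e (y n)‖ := norm_sub_le _ _
        _ ≤ C + C := add_le_add ((h1 _).trans (hx n)) ((h1 _).trans (hy n))
    · intro k
      have h4 : Tendsto (fun n => ‖g k (e (x n) - e (y n))‖) atTop (𝓝 0) :=
        sq0 ((1 / 2 : ℝ) ^ (2 * k + 1 + 1)) (by positivity) _ _ (fun n => hi k (x n) (y n)) hD
      have h5 : Tendsto (fun n => g k (e (x n) - e (y n))) atTop (𝓝 0) :=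
        tendsto_zero_iff_norm_tendsto_zero.2 h4
      have h6 : Tendsto (fun n => ((max 1 ‖f k‖ : ℝ) : 𝕜) * g k (e (x n) - e (y n))) atTop
          (𝓝 (((max 1 ‖f k‖ : ℝ) : 𝕜) * 0)) := h5.const_mul _
      rw [mul_zero] at h6
      refine h6.congr fun n => ?_
      rw [hfg]
  refine ⟨F', i1, i2, e, ?_, ?_⟩
  · -- LCD
    intro x ε hε
    by_contra hcon
    push Not at hcon
    have h4 : ∀ n : ℕ, ∃ y : F', Df x y < 1 / ((n : ℝ) + 1) ∧ ε ≤ ‖x - y‖ :=
      fun n => hcon _ Nat.one_div_pos_of_nat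
    choose y hy1 hy2 using h4
    have hD : Tendsto (fun n => Df x (y n)) atTop (𝓝 0) :=
      squeeze_zero (fun n => (h3 _ _).1) (fun n => (hy1 n).le) tendsto_one_div_add_atTop_nhds_zero_nat
    have hyb : ∀ n, ‖y n‖ ≤ ‖x‖ + 1 := by
      intro n
      have h5 := df_ge x (y n)
      have h6 : Df x (y n) < 1 := by
        refine (hy1 n).trans_le ?_
        rw [div_le_one (by positivity)]
        have : (0 : ℝ) ≤ n := Nat.cast_nonneg n
        linarith
      by_contra h7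
      push Not at h7
      nlinarith
    have hwn : WeaklyNull 𝕜 fun n => e x - e (y n) :=
      hw (fun _ => x) y (‖x‖ + 1) (fun _ => by linarith) hyb hD
    obtain ⟨η, hη⟩ : ∃ η : ℝ, η = ε / 8 := ⟨_, rfl⟩
    have hη0 : 0 < η := by rw [hη]; positivity
    obtain ⟨j, hj⟩ := hdd.exists_dist_lt (e x) hη0
    set V := Submodule.span 𝕜 (d '' Set.Iio (j + 1)) with hV
    have : FiniteDimensional 𝕜 V :=
      FiniteDimensional.span_of_finite 𝕜 ((Set.finite_Iio _).image d)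
    have hdj : d j ∈ V := Submodule.subset_span ⟨j, Nat.lt_succ_self j, rfl⟩
    have hqx : ‖V.mkQ (e x)‖ < η := by
      have h5 : V.mkQ (e x) = V.mkQ (e x - d j) := by
        rw [map_sub]
        have : V.mkQ (d j) = 0 := by
          rw [Submodule.mkQ_apply, Submodule.Quotient.mk_eq_zero]
          exact hdj
        rw [this, sub_zero]
      rw [h5]
      refine lt_of_le_of_lt (Submodule.Quotient.norm_mk_le _ _) ?_
      rw [dist_eq_norm] at hj
      exact hj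
    have hqt : Tendsto (fun n => ‖V.mkQ (e x)‖ - ‖V.mkQ (e (y n))‖) atTop (𝓝 0) :=
      sq0 ((1 / 2 : ℝ) ^ (2 * (j + 1) + 1)) (by positivity) _ _
        (fun n => hii (j + 1) x (y n)) hD
    have hqe : ∀ᶠ n in atTop, ‖V.mkQ (e (y n))‖ < η := by
      have h5 := hqt.eventually (Ioi_mem_nhds (show ‖V.mkQ (e x)‖ - η < 0 by linarith))
      filter_upwards [h5] with n hn
      have : ‖V.mkQ (e x)‖ - η < ‖V.mkQ (e x)‖ - ‖V.mkQ (e (y n))‖ := hn
      linarith
    obtain ⟨N, hN⟩ := eventually_atTop.1 hqe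
    have hv : ∀ n, ∃ v : V, ‖e (y (n + N)) - v‖ < η := by
      intro n
      have h5 := hN (n + N) (by omega)
      obtain ⟨m, hm1, hm2⟩ := Submodule.Quotient.norm_mk_lt (V.mkQ (e (y (n + N))))
        (show 0 < η - ‖V.mkQ (e (y (n + N)))‖ by linarith)
      have h6 : e (y (n + N)) - m ∈ V := by
        rw [Submodule.mkQ_apply, eq_comm, Submodule.Quotient.eq] at hm1
        exact hm1
      refine ⟨⟨_, h6⟩, ?_⟩
      have h7 : e (y (n + N)) - (e (y (n + N)) - m) = m := by abel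
      simp only
      rw [h7]
      linarith
    choose v hv using hv
    have : ProperSpace V := FiniteDimensional.proper_rclike 𝕜 V
    have hvb : ∀ n, v n ∈ Metric.closedBall (0 : V) (‖x‖ + 1 + η) := by
      intro n
      rw [mem_closedBall_zero_iff]
      have h5 : ((v n : V) : F) = e (y (n + N)) - (e (y (n + N)) - v n) := by abel
      have h6 : ‖v n‖ = ‖((v n : V) : F)‖ := rfl
      rw [h6, h5]
      calc ‖e (y (n + N)) - (e (y (n + N)) - v n)‖ ≤ ‖e (y (n + N))‖ + ‖e (y (n + N)) - v n‖ :=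
            norm_sub_le _ _
        _ ≤ ‖x‖ + 1 + η := add_le_add ((h1 _).trans (hyb _)) (hv n).le
    obtain ⟨a, _, φ, hφ, hlim⟩ := tendsto_subseq_of_bounded Metric.isBounded_closedBall hvb
    have hlim' : ∀ᶠ n in atTop, ‖((v (φ n) : V) : F) - a‖ < η / 2 := by
      have h5 := (Metric.tendsto_atTop.1 hlim) (η / 2) (by positivity)
      obtain ⟨M, hM⟩ := h5
      filter_upwards [eventually_ge_atTop M] with n hn
      have := hM n hn
      rw [dist_eq_norm] at this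
      exact this
    obtain ⟨q, hq1, hq2⟩ := exists_dual_vector'' 𝕜 (e x - (a : F))
    have hqn : ∀ᶠ n in atTop, ‖q (e x - e (y (φ n + N)))‖ < η / 2 := by
      have h5 := hwn q
      have h6 : Tendsto (fun n => φ n + N) atTop atTop :=
        tendsto_atTop_mono (fun n => Nat.le_add_right _ _) hφ.tendsto_atTop
      have h7 := (h5.comp h6).norm
      rw [norm_zero] at h7
      exact h7.eventually (Iio_mem_nhds (show (0 : ℝ) < η / 2 by positivity))
    obtain ⟨n, hn1, hn2⟩ := (hlim'.and hqn).exists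
    have hvn := hv (φ n)
    have hxa : ‖e x - (a : F)‖ ≤ 2 * η := by
      have h5 : ‖e x - (a : F)‖ = ‖q (e x - (a : F))‖ := by
        rw [hq2, RCLike.norm_ofReal, abs_of_nonneg (norm_nonneg _)]
      rw [h5]
      have h6 : q (e x - (a : F)) = q (e x - e (y (φ n + N))) + q (e (y (φ n + N)) - v (φ n)) +
          q ((v (φ n) : F) - a) := by
        rw [← map_add, ← map_add]
        congr 1
        abel
      rw [h6]
      have h7 : ∀ z : F, ‖q z‖ ≤ ‖z‖ := by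
        intro z
        calc ‖q z‖ ≤ ‖q‖ * ‖z‖ := q.le_opNorm z
          _ ≤ 1 * ‖z‖ := by gcongr
          _ = ‖z‖ := one_mul _
      have h8 := h7 (e (y (φ n + N)) - v (φ n))
      have h9 := h7 ((v (φ n) : F) - a)
      refine (norm_add₃_le).trans ?_
      linarith
    have hfin : ‖e x - e (y (φ n + N))‖ ≤ 2 * η + η / 2 + η := by
      have h5 : e x - e (y (φ n + N)) = (e x - (a : F)) + ((a : F) - v (φ n)) +
          ((v (φ n) : F) - e (y (φ n + N))) := by abel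
      rw [h5]
      refine (norm_add₃_le).trans ?_
      rw [norm_sub_rev (a : F) _, norm_sub_rev (v (φ n) : F) (e _)]
      linarith
    have h10 := hy2 (φ n + N)
    have h11 := h2 (x - y (φ n + N))
    rw [map_sub] at h11
    rw [hη] at hfin
    linarith
  · -- WCD
    intro x y C hx hy hD ψ
    have h4 := hw x y C hx hy hD (ψ.comp (e.symm : F →L[𝕜] F'))
    refine h4.congr fun n => ?_
    simp

end Pool.Agent.H55.CR
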